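import Mathlib

/-!
# Runs of triples of type (1): the exact potential (owner: helper16)

Pure sequences. `x_0, .., x_(N-1)` in the majority order, `p i l` (for `i < l`) = probability that
`x_l` comes before `x_i`, `h j` = mean position of `x_j`, `inc j`: `x_j` and `x_(j+1)` are
incomparable, `far j`: `x_j` and `x_(j+2)` are incomparable.

`lk i l`: `l - i` is odd and `x_i, .., x_l` lie in one run, i.e. all consecutive pairs are
incomparable and all triples have comparable ends. `F m` is the sum of `p i l` over all linked pairs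
`i ≤ m < l`.
-/

set_option autoImplicit false

namespace Pool.Agent.BFT3

open Finset

section
variable (N : ℕ) (p : ℕ → ℕ → ℝ) (inc far : ℕ → Prop)

/-- linked pairs -/
def lk (i l : ℕ) : Prop :=
  i < l ∧ (l - i) % 2 = 1 ∧ (∀ m, i ≤ m → m < l → inc m) ∧
    (∀ m, i ≤ m → m + 2 ≤ l → ¬ far m)

open Classical in
/-- the linked later elements before `x_i` (mean number) -/
noncomputable def out (i : ℕ) : ℝ :=
  ∑ l ∈ Ico (i + 1) N, if lk inc far i l then p i l else 0

open Classical in
/-- the linked earlier elements after `x_l` (mean number) -/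
noncomputable def inn (l : ℕ) : ℝ :=
  ∑ i ∈ range l, if lk inc far i l then p i l else 0

open Classical in
/-- the potential of the cut between `x_m` and `x_(m+1)` -/
noncomputable def F (m : ℕ) : ℝ :=
  ∑ i ∈ range (m + 1), ∑ l ∈ Ico (m + 1) N, if lk inc far i l then p i l else 0

open Classical in
/-- cost of the triple `j` on its left side -/
noncomputable def costL (j : ℕ) : ℝ :=
  ∑ k ∈ range j, if lk inc far k j ∧ ¬ lk inc far k (j + 2) then p k (j + 2) else 0

open Classical in
/-- cost of the triple `j` on its right side -/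
noncomputable def costR (j : ℕ) : ℝ :=
  ∑ l ∈ Ico (j + 3) N, if lk inc far (j + 2) l ∧ ¬ lk inc far j l then p j l else 0

end

open scoped Classical

variable {N : ℕ} {p : ℕ → ℕ → ℝ} {inc far : ℕ → Prop}

theorem lk_succ (i : ℕ) : lk inc far i (i + 1) ↔ inc i := by
  unfold lk
  constructor
  · rintro ⟨_, _, h, _⟩
    exact h i le_rfl (Nat.lt_succ_self i)
  · intro h
    refine ⟨Nat.lt_succ_self i, by omega, fun m h1 h2 => ?_, fun m h1 h2 => ?_⟩
    · have : m = i := by omega
      rw [this]; exact h
    · omega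

theorem not_lk_two (i : ℕ) : ¬ lk inc far i (i + 2) := by
  rintro ⟨_, h, _⟩
  omega

/-- the last step of a linked pair -/
theorem lk_restr {k j : ℕ} (hk : k < j) (h : lk inc far k (j + 2)) : lk inc far k j := by
  obtain ⟨_, h2, h3, h4⟩ := h
  refine ⟨hk, by omega, fun m a b => h3 m a (by omega), fun m a b => h4 m a (by omega)⟩

theorem lk_restr' {j l : ℕ} (hl : j + 2 < l) (h : lk inc far j l) : lk inc far (j + 2) l := by
  obtain ⟨_, h2, h3, h4⟩ := h
  refine ⟨hl, by omega, fun m a b => h3 m (by omega) b, fun m a b => h4 m (by omega) b⟩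

/-- one step more inside of a run -/
theorem lk_ext {k j : ℕ} (hk : k < j) (h : lk inc far k j) (i0 : inc j) (i1 : inc (j + 1))
    (f0 : ¬ far j) (f1 : ¬ far (j - 1)) : lk inc far k (j + 2) := by
  obtain ⟨_, h2, h3, h4⟩ := h
  refine ⟨by omega, by omega, fun m a b => ?_, fun m a b => ?_⟩
  · rcases Nat.lt_or_ge m j with c | c
    · exact h3 m a c
    · rcases Nat.eq_or_lt_of_le c with c | c
      · rw [← c]; exact i0
      · have : m = j + 1 := by omega
        rw [this]; exact i1
  · rcases Nat.lt_or_ge j (m + 2) with c | c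
    · rcases Nat.eq_or_lt_of_le (show m ≤ j by omega) with c' | c'
      · rw [c']; exact f0
      · have : m = j - 1 := by omega
        rw [this]; exact f1
    · exact h4 m a c

theorem lk_ext' {j l : ℕ} (h : lk inc far (j + 2) l) (i0 : inc j) (i1 : inc (j + 1))
    (f0 : ¬ far j) (f1 : ¬ far (j + 1)) : lk inc far j l := by
  obtain ⟨h1, h2, h3, h4⟩ := h
  refine ⟨by omega, by omega, fun m a b => ?_, fun m a b => ?_⟩
  · rcases Nat.lt_or_ge m (j + 2) with c | c
    · rcases Nat.eq_or_lt_of_le a with c' | c'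
      · rw [← c']; exact i0
      · have : m = j + 1 := by omega
        rw [this]; exact i1
    · exact h3 m c b
  · rcases Nat.lt_or_ge m (j + 2) with c | c
    · rcases Nat.eq_or_lt_of_le a with c' | c'
      · rw [← c']; exact f0
      · have : m = j + 1 := by omega
        rw [this]; exact f1
    · exact h4 m c b

/-! ## the potential -/

/-- the potential vanishes at comparable pairs -/
theorem F_zero {m : ℕ} (h : ¬ inc m) : F N p inc far m = 0 := by
  unfold F
  refine Finset.sum_eq_zero (fun i hi => Finset.sum_eq_zero (fun l hl => ?_))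
  rw [if_neg]
  rintro ⟨_, _, h3, _⟩
  rw [Finset.mem_range] at hi
  rw [Finset.mem_Ico] at hl
  exact h (h3 m (by omega) (by omega))

/-- difference of the potential at an element -/
theorem F_succ {m : ℕ} (hm : m + 1 < N) :
    F N p inc far (m + 1) - F N p inc far m = out N p inc far (m + 1) - inn p inc far (m + 1) := by
  unfold F out inn
  rw [Finset.sum_range_succ _ (m + 1)]
  have h1 : ∀ i, ∑ l ∈ Ico (m + 1) N, (if lk inc far i l then p i l else 0) =
      (if lk inc far i (m + 1) then p i (m + 1) else 0) +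
        ∑ l ∈ Ico (m + 1 + 1) N, (if lk inc far i l then p i l else 0) := by
    intro i
    exact Finset.sum_eq_sum_Ico_succ_bot hm _
  have h2 : ∑ i ∈ range (m + 1), ∑ l ∈ Ico (m + 1) N, (if lk inc far i l then p i l else 0) =
      ∑ i ∈ range (m + 1), (if lk inc far i (m + 1) then p i (m + 1) else 0) +
        ∑ i ∈ range (m + 1), ∑ l ∈ Ico (m + 1 + 1) N, (if lk inc far i l then p i l else 0) := by
    rw [← Finset.sum_add_distrib]
    exact Finset.sum_congr rfl (fun i _ => h1 i)
  rw [h2]
  ring

/-- the first pair of a stretch: only one pair crosses the first cut together with longer ones -/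
theorem F_first {a : ℕ} (h : ∀ i, i < a → ¬ lk inc far i (a + 1) ∧ ∀ l, a < l → ¬ lk inc far i l) :
    F N p inc far a = out N p inc far a := by
  unfold F out
  rw [Finset.sum_range_succ, Finset.sum_eq_zero, zero_add]
  intro i hi
  rw [Finset.mem_range] at hi
  refine Finset.sum_eq_zero (fun l hl => ?_)
  rw [Finset.mem_Ico] at hl
  rw [if_neg]
  exact (h i hi).2 l (by omega)

/-! ## the counting identity -/

/-- mean positions -/
def Pos (N : ℕ) (p : ℕ → ℕ → ℝ) (h : ℕ → ℝ) : Prop :=
  ∀ j, j < N → h j = 1 + (j : ℝ) + ∑ l ∈ Ico (j + 1) N, p j l - ∑ k ∈ range j, p k j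

theorem gap_eq {h : ℕ → ℝ} (H : Pos N p h) {j : ℕ} (hj : j + 2 < N) :
    h (j + 2) - h j = 2 - p j (j + 1) - p (j + 1) (j + 2) - 2 * p j (j + 2)
      + ∑ l ∈ Ico (j + 3) N, (p (j + 2) l - p j l) + ∑ k ∈ range j, (p k j - p k (j + 2)) := by
  rw [H (j + 2) hj, H j (by omega)]
  rw [Finset.sum_range_succ (fun k => p k (j + 2)) (j + 1),
    Finset.sum_range_succ (fun k => p k (j + 2)) j]
  rw [Finset.sum_eq_sum_Ico_succ_bot (show j + 1 < N by omega) (fun l => p j l),
    Finset.sum_eq_sum_Ico_succ_bot (show j + 1 + 1 < N by omega) (fun l => p j l)]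
  rw [Finset.sum_sub_distrib, Finset.sum_sub_distrib]
  push_cast
  ring

theorem out_eq {j : ℕ} (hj : j + 2 < N) (i0 : inc j) :
    out N p inc far j = p j (j + 1) +
      ∑ l ∈ Ico (j + 3) N, (if lk inc far j l then p j l else 0) := by
  unfold out
  rw [Finset.sum_eq_sum_Ico_succ_bot (show j + 1 < N by omega),
    Finset.sum_eq_sum_Ico_succ_bot (show j + 1 + 1 < N by omega),
    if_pos ((lk_succ j).2 i0), if_neg (not_lk_two j), zero_add]

theorem inn_eq {j : ℕ} (i1 : inc (j + 1)) :
    inn p inc far (j + 2) = p (j + 1) (j + 2) +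
      ∑ k ∈ range j, (if lk inc far k (j + 2) then p k (j + 2) else 0) := by
  unfold inn
  rw [Finset.sum_range_succ _ (j + 1), Finset.sum_range_succ _ j,
    if_pos ((lk_succ (j + 1)).2 i1), if_neg (not_lk_two j)]
  ring

/-- **Triples of type (1)**: exact up to the costs at the ends of the run -/
theorem gap_type1 {h : ℕ → ℝ} (H : Pos N p h) {j : ℕ} (hj : j + 2 < N) (i0 : inc j)
    (i1 : inc (j + 1)) (hp : p j (j + 2) = 0)
    (mR : ∀ l, j + 2 < l → l < N → p j l ≤ p (j + 2) l)
    (mL : ∀ k, k < j → p k (j + 2) ≤ p k j)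
    (nn : ∀ i l, 0 ≤ p i l) :
    out N p inc far (j + 2) - inn p inc far (j + 2) - out N p inc far j + inn p inc far j
      - costL p inc far j - costR N p inc far j ≤ h (j + 2) - h j - 2 := by
  classical
  rw [gap_eq H hj, out_eq hj i0, inn_eq i1, hp]
  unfold out inn costL costR
  have hR : ∑ l ∈ Ico (j + 3) N, (if lk inc far (j + 2) l then p (j + 2) l else 0)
      - ∑ l ∈ Ico (j + 3) N, (if lk inc far j l then p j l else 0)
      - ∑ l ∈ Ico (j + 3) N, (if lk inc far (j + 2) l ∧ ¬ lk inc far j l then p j l else 0) ≤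
      ∑ l ∈ Ico (j + 3) N, (p (j + 2) l - p j l) := by
    rw [← Finset.sum_sub_distrib, ← Finset.sum_sub_distrib]
    refine Finset.sum_le_sum (fun l hl => ?_)
    rw [Finset.mem_Ico] at hl
    have h1 := mR l (by omega) hl.2
    have h2 := nn j l
    have h3 := nn (j + 2) l
    by_cases c : lk inc far (j + 2) l
    · by_cases c' : lk inc far j l
      · rw [if_pos c, if_pos c', if_neg (fun a => a.2 c')]
        linarith
      · rw [if_pos c, if_neg c', if_pos ⟨c, c'⟩]
        linarith
    · by_cases c' : lk inc far j l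
      · rw [if_neg c, if_pos c', if_neg (fun a => c a.1)]
        linarith
      · rw [if_neg c, if_neg c', if_neg (fun a => c a.1)]
        linarith
  have hL : ∑ k ∈ range j, (if lk inc far k j then p k j else 0)
      - ∑ k ∈ range j, (if lk inc far k (j + 2) then p k (j + 2) else 0)
      - ∑ k ∈ range j, (if lk inc far k j ∧ ¬ lk inc far k (j + 2) then p k (j + 2) else 0) ≤
      ∑ k ∈ range j, (p k j - p k (j + 2)) := by
    rw [← Finset.sum_sub_distrib, ← Finset.sum_sub_distrib]
    refine Finset.sum_le_sum (fun k hk => ?_)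
    rw [Finset.mem_range] at hk
    have h1 := mL k hk
    have h2 := nn k j
    have h3 := nn k (j + 2)
    by_cases c : lk inc far k j
    · by_cases c' : lk inc far k (j + 2)
      · rw [if_pos c, if_pos c', if_neg (fun a => a.2 c')]
        linarith
      · rw [if_pos c, if_neg c', if_pos ⟨c, c'⟩]
        linarith
    · rw [if_neg c, if_neg (fun a => c (lk_restr hk a)), if_neg (fun a => c a.1)]
      linarith
  linarith

/-- the same in terms of the potential -/
theorem gap_type1' {h : ℕ → ℝ} (H : Pos N p h) {j : ℕ} (hj : j + 3 < N) (i0 : inc (j + 1))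
    (i1 : inc (j + 2)) (hp : p (j + 1) (j + 3) = 0)
    (mR : ∀ l, j + 3 < l → l < N → p (j + 1) l ≤ p (j + 3) l)
    (mL : ∀ k, k < j + 1 → p k (j + 3) ≤ p k (j + 1))
    (nn : ∀ i l, 0 ≤ p i l) :
    2 + F N p inc far j - F N p inc far (j + 1) - F N p inc far (j + 2) + F N p inc far (j + 3)
      - costL p inc far (j + 1) - costR N p inc far (j + 1) ≤ h (j + 3) - h (j + 1) := by
  have h1 := gap_type1 H (j := j + 1) (by omega) i0 i1 hp (fun l a b => mR l (by omega) b)
    (fun k a => mL k a) nn (far := far)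
  have h2 := F_succ (N := N) (p := p) (inc := inc) (far := far) (m := j) (by omega)
  have h3 := F_succ (N := N) (p := p) (inc := inc) (far := far) (m := j + 2) (by omega)
  rw [show j + 1 + 2 = j + 3 from rfl] at h1
  rw [show j + 2 + 1 = j + 3 from rfl] at h3
  linarith

/-! ## where the costs vanish -/

/-- no cost on the left if the pair on the left is comparable or the triple on the left is of
type (1) -/
theorem costL_zero {j : ℕ} (i0 : inc (j + 1)) (i1 : inc (j + 2)) (f0 : ¬ far (j + 1))
    (h : ¬ inc j ∨ ¬ far j) : costL p inc far (j + 1) = 0 := by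
  unfold costL
  refine Finset.sum_eq_zero (fun k hk => ?_)
  rw [Finset.mem_range] at hk
  rw [if_neg]
  rintro ⟨h1, h2⟩
  rcases h with h | h
  · exact h (h1.2.2.1 j (by omega) (by omega))
  · exact h2 (lk_ext hk h1 i0 i1 f0 (by rw [Nat.add_sub_cancel]; exact h))

theorem costR_zero {j : ℕ} (i0 : inc j) (i1 : inc (j + 1)) (f0 : ¬ far j)
    (h : ¬ inc (j + 2) ∨ ¬ far (j + 1)) : costR N p inc far j = 0 := by
  unfold costR
  refine Finset.sum_eq_zero (fun l hl => ?_)
  rw [if_neg]
  rintro ⟨h1, h2⟩
  rcases h with h | h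
  · exact h (h1.2.2.1 (j + 2) le_rfl h1.1)
  · exact h2 (lk_ext' h1 i0 i1 f0 h)

/-! ## at a triple of type (4) -/

/-- after a triple `j` of type (4) only the pair `j + 1` is linked to `x_(j+2)` on the left -/
theorem inn_far {j : ℕ} (hf : far j) (i1 : inc (j + 1)) :
    inn p inc far (j + 2) = p (j + 1) (j + 2) := by
  rw [inn_eq i1, Finset.sum_eq_zero, add_zero]
  intro k hk
  rw [Finset.mem_range] at hk
  rw [if_neg]
  rintro ⟨_, _, _, h4⟩
  exact h4 j hk.le le_rfl hf

/-- before a triple `j` of type (4) only the pair `j` is linked to `x_j` on the right -/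
theorem out_far {j : ℕ} (hj : j + 2 < N) (hf : far j) (i0 : inc j) :
    out N p inc far j = p j (j + 1) := by
  rw [out_eq hj i0, Finset.sum_eq_zero, add_zero]
  intro l hl
  rw [Finset.mem_Ico] at hl
  rw [if_neg]
  rintro ⟨_, _, _, h4⟩
  exact h4 j le_rfl (by omega) hf

/-- the potential difference at a triple of type (4) -/
theorem F_far {j : ℕ} (hj : j + 3 < N) (hf : far (j + 1)) (i0 : inc (j + 1)) (i1 : inc (j + 2)) :
    F N p inc far j - F N p inc far (j + 1) - F N p inc far (j + 2) + F N p inc far (j + 3) =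
      inn p inc far (j + 1) + out N p inc far (j + 3) - p (j + 1) (j + 2) - p (j + 2) (j + 3) := by
  have h2 := F_succ (N := N) (p := p) (inc := inc) (far := far) (m := j) (by omega)
  have h3 := F_succ (N := N) (p := p) (inc := inc) (far := far) (m := j + 2) (by omega)
  rw [show j + 2 + 1 = j + 3 from rfl] at h3
  have h4 := inn_far (p := p) hf i1
  have h5 := out_far (p := p) (N := N) (by omega) hf i0
  rw [show j + 1 + 2 = j + 3 from rfl, show j + 1 + 1 = j + 2 from rfl] at h4
  rw [show j + 1 + 1 = j + 2 from rfl] at h5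
  linarith

end Pool.Agent.BFT3
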