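import Mathlib
import Pool.Agent.BFT3.Run
import Pool.Agent.BFT2.Assembly
import Pool.Agent.BFT.Moments

/-!
# The exact potential for the majority order of a poset (owner: helper16)
-/

set_option autoImplicit false

namespace Pool.Agent.BFT3

open Finset Pool.Agent.Helper1.Balance Pool.Agent.Helper8.KS Pool.Agent.Helper18.KSC Pool.Agent.BFT
open Pool.Agent.BFT2

/-! ## counting inside an inversion -/

section count
variable {n : ℕ} {r : Fin n → Fin n → Prop}

/-- probabilities are monotone in the second element -/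
theorem prob_le_right (hr : IsPoset r) {x y z : Fin n} (h : r y z) : prob r x y ≤ prob r x z := by
  classical
  rw [prob_eq_Pr, prob_eq_Pr]
  unfold Pr
  refine BFT.One.Ex_mono_on (fun σ hσ => ?_)
  have h1 := mem_LEs.1 hσ _ _ h
  by_cases c : σ x < σ y
  · rw [if_pos c, if_pos (lt_of_lt_of_le c h1)]
  · rw [if_neg c]
    split_ifs
    · norm_num
    · exact le_rfl

theorem prob_le_left (hr : IsPoset r) {x y z : Fin n} (h : r x y) : prob r y z ≤ prob r x z := by
  classical
  rw [prob_eq_Pr, prob_eq_Pr]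
  unfold Pr
  refine BFT.One.Ex_mono_on (fun σ hσ => ?_)
  have h1 := mem_LEs.1 hσ _ _ h
  by_cases c : σ y < σ z
  · rw [if_pos c, if_pos (lt_of_le_of_lt h1 c)]
  · rw [if_neg c]
    split_ifs
    · norm_num
    · exact le_rfl

theorem prob_eq_D (x y : Fin n) : prob r x y = Pr r (fun σ => 0 < D x y σ) := by
  rw [prob_eq_Pr]
  congr 1
  funext σ
  unfold D
  rw [eq_iff_iff]
  constructor
  · intro h
    have : (σ x : ℕ) < (σ y : ℕ) := h
    omega
  · intro h
    show (σ x : ℕ) < (σ y : ℕ)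
    omega

/-- elements above `y` that come before `x` -/
theorem cnt_up (T : Finset ℕ) (e : ℕ → Fin n) (he : Set.InjOn e T) {x y : Fin n}
    (h : ∀ k ∈ T, r y (e k)) :
    ∑ k ∈ T, prob r (e k) x ≤ mneg r x y := by
  classical
  have h1 : ∑ k ∈ T, prob r (e k) x =
      Ex r (fun σ => ((T.filter (fun k => 0 < D (e k) x σ)).card : ℝ)) := by
    rw [← sum_Pr T (fun k σ => 0 < D (e k) x σ) (fun σ k => 0 < D (e k) x σ) (fun _ _ => Iff.rfl)]
    exact Finset.sum_congr rfl (fun k _ => prob_eq_D _ _)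
  rw [h1]
  unfold mneg
  refine BFT.One.Ex_mono_on (fun σ hσ => ?_)
  have h2 : ((T.filter (fun k => 0 < D (e k) x σ)).image (fun k => D y (e k) σ)) ⊆
      Finset.Ico 0 (D y x σ) := by
    intro t ht
    rw [Finset.mem_image] at ht
    obtain ⟨k, hk, rfl⟩ := ht
    rw [Finset.mem_filter] at hk
    have a := D_add y (e k) x σ
    have b : 0 ≤ D y (e k) σ := by
      have := mem_LEs.1 hσ _ _ (h k hk.1)
      unfold D
      have : (σ y : ℕ) ≤ (σ (e k) : ℕ) := this
      omega
    rw [Finset.mem_Ico]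
    omega
  have h3 := Finset.card_le_card h2
  rw [Finset.card_image_of_injOn] at h3
  · rw [Int.card_Ico] at h3
    have h4 : ((T.filter (fun k => 0 < D (e k) x σ)).card : ℤ) ≤ max (-(D x y σ)) 0 := by
      have := D_neg x y σ
      omega
    have h5 : (((T.filter (fun k => 0 < D (e k) x σ)).card : ℤ) : ℝ) ≤
        ((max (-(D x y σ)) 0 : ℤ) : ℝ) := by exact_mod_cast h4
    push_cast at h5
    exact h5
  · intro a ha b hb hab
    simp only at hab
    unfold D at hab
    rw [Finset.mem_coe, Finset.mem_filter] at ha hb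
    refine he ha.1 hb.1 (σ.injective (Fin.ext ?_))
    omega

/-- elements below `x` that come after `y` -/
theorem cnt_down (T : Finset ℕ) (e : ℕ → Fin n) (he : Set.InjOn e T) {x y : Fin n}
    (h : ∀ k ∈ T, r (e k) x) :
    ∑ k ∈ T, prob r y (e k) ≤ mneg r x y := by
  classical
  have h1 : ∑ k ∈ T, prob r y (e k) =
      Ex r (fun σ => ((T.filter (fun k => 0 < D y (e k) σ)).card : ℝ)) := by
    rw [← sum_Pr T (fun k σ => 0 < D y (e k) σ) (fun σ k => 0 < D y (e k) σ) (fun _ _ => Iff.rfl)]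
    exact Finset.sum_congr rfl (fun k _ => prob_eq_D _ _)
  rw [h1]
  unfold mneg
  refine BFT.One.Ex_mono_on (fun σ hσ => ?_)
  have h2 : ((T.filter (fun k => 0 < D y (e k) σ)).image (fun k => D y (e k) σ)) ⊆
      Finset.Ioc 0 (D y x σ) := by
    intro t ht
    rw [Finset.mem_image] at ht
    obtain ⟨k, hk, rfl⟩ := ht
    rw [Finset.mem_filter] at hk
    have a := D_add y (e k) x σ
    have b : 0 ≤ D (e k) x σ := by
      have := mem_LEs.1 hσ _ _ (h k hk.1)
      unfold D
      have : (σ (e k) : ℕ) ≤ (σ x : ℕ) := this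
      omega
    rw [Finset.mem_Ioc]
    omega
  have h3 := Finset.card_le_card h2
  rw [Finset.card_image_of_injOn] at h3
  · rw [Int.card_Ioc] at h3
    have h4 : ((T.filter (fun k => 0 < D y (e k) σ)).card : ℤ) ≤ max (-(D x y σ)) 0 := by
      have := D_neg x y σ
      omega
    have h5 : (((T.filter (fun k => 0 < D y (e k) σ)).card : ℤ) : ℝ) ≤
        ((max (-(D x y σ)) 0 : ℤ) : ℝ) := by exact_mod_cast h4
    push_cast at h5
    exact h5
  · intro a ha b hb hab
    simp only at hab
    unfold D at hab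
    rw [Finset.mem_coe, Finset.mem_filter] at ha hb
    refine he ha.1 hb.1 (σ.injective (Fin.ext ?_))
    omega

open Classical in
/-- elements above `y` that come before `v`, where `v` is below `x` -/
theorem cnt_up' (T : Finset ℕ) (e : ℕ → Fin n) (he : Set.InjOn e T) {x y v : Fin n}
    (h : ∀ k ∈ T, r y (e k)) (hv : r v x) (hne : v ≠ x) :
    ∑ k ∈ T, prob r (e k) v + prob r y x ≤ mneg r x y := by
  have h1 : ∑ k ∈ T, prob r (e k) v =
      Ex r (fun σ => ((T.filter (fun k => 0 < D (e k) v σ)).card : ℝ)) := by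
    rw [← sum_Pr T (fun k σ => 0 < D (e k) v σ) (fun σ k => 0 < D (e k) v σ) (fun _ _ => Iff.rfl)]
    exact Finset.sum_congr rfl (fun k _ => prob_eq_D _ _)
  rw [h1, prob_eq_D y x]
  unfold mneg Pr
  rw [← Ex_add]
  refine BFT.One.Ex_mono_on (fun σ hσ => ?_)
  have hvx : 0 < D v x σ := BFT.One.D_pos hv hne hσ
  have h2 : ((T.filter (fun k => 0 < D (e k) v σ)).image (fun k => D y (e k) σ)) ⊆
      Finset.Ico 0 (D y v σ) := by
    intro t ht
    rw [Finset.mem_image] at ht
    obtain ⟨k, hk, rfl⟩ := ht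
    rw [Finset.mem_filter] at hk
    have a := D_add y (e k) v σ
    have b : 0 ≤ D y (e k) σ := by
      have := mem_LEs.1 hσ _ _ (h k hk.1)
      unfold D
      have : (σ y : ℕ) ≤ (σ (e k) : ℕ) := this
      omega
    rw [Finset.mem_Ico]
    omega
  have h3 := Finset.card_le_card h2
  rw [Finset.card_image_of_injOn] at h3
  · rw [Int.card_Ico] at h3
    have h4 : ((T.filter (fun k => 0 < D (e k) v σ)).card : ℤ) + (if 0 < D y x σ then 1 else 0) ≤
        max (-(D x y σ)) 0 := by
      have a1 := D_neg x y σ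
      have a2 := D_add y v x σ
      split_ifs <;> omega
    have h5 : ((((T.filter (fun k => 0 < D (e k) v σ)).card : ℤ) +
        (if 0 < D y x σ then 1 else 0) : ℤ) : ℝ) ≤ ((max (-(D x y σ)) 0 : ℤ) : ℝ) := by
      exact_mod_cast h4
    push_cast at h5
    convert h5 using 2
    by_cases h6 : 0 < D y x σ
    · rw [if_pos h6, if_pos h6]
    · rw [if_neg h6, if_neg h6]
  · intro a ha b hb hab
    simp only at hab
    unfold D at hab
    rw [Finset.mem_coe, Finset.mem_filter] at ha hb
    refine he ha.1 hb.1 (σ.injective (Fin.ext ?_))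
    omega

open Classical in
/-- elements below `x` that come after `v`, where `v` is above `y` -/
theorem cnt_down' (T : Finset ℕ) (e : ℕ → Fin n) (he : Set.InjOn e T) {x y v : Fin n}
    (h : ∀ k ∈ T, r (e k) x) (hv : r y v) (hne : y ≠ v) :
    ∑ k ∈ T, prob r v (e k) + prob r y x ≤ mneg r x y := by
  have h1 : ∑ k ∈ T, prob r v (e k) =
      Ex r (fun σ => ((T.filter (fun k => 0 < D v (e k) σ)).card : ℝ)) := by
    rw [← sum_Pr T (fun k σ => 0 < D v (e k) σ) (fun σ k => 0 < D v (e k) σ) (fun _ _ => Iff.rfl)]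
    exact Finset.sum_congr rfl (fun k _ => prob_eq_D _ _)
  rw [h1, prob_eq_D y x]
  unfold mneg Pr
  rw [← Ex_add]
  refine BFT.One.Ex_mono_on (fun σ hσ => ?_)
  have hvx : 0 < D y v σ := BFT.One.D_pos hv hne hσ
  have h2 : ((T.filter (fun k => 0 < D v (e k) σ)).image (fun k => D v (e k) σ)) ⊆
      Finset.Ioc 0 (D v x σ) := by
    intro t ht
    rw [Finset.mem_image] at ht
    obtain ⟨k, hk, rfl⟩ := ht
    rw [Finset.mem_filter] at hk
    have a := D_add v (e k) x σ
    have b : 0 ≤ D (e k) x σ := by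
      have := mem_LEs.1 hσ _ _ (h k hk.1)
      unfold D
      have : (σ (e k) : ℕ) ≤ (σ x : ℕ) := this
      omega
    rw [Finset.mem_Ioc]
    omega
  have h3 := Finset.card_le_card h2
  rw [Finset.card_image_of_injOn] at h3
  · rw [Int.card_Ioc] at h3
    have h4 : ((T.filter (fun k => 0 < D v (e k) σ)).card : ℤ) + (if 0 < D y x σ then 1 else 0) ≤
        max (-(D x y σ)) 0 := by
      have a1 := D_neg x y σ
      have a2 := D_add y v x σ
      split_ifs <;> omega
    have h5 : ((((T.filter (fun k => 0 < D v (e k) σ)).card : ℤ) +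
        (if 0 < D y x σ then 1 else 0) : ℤ) : ℝ) ≤ ((max (-(D x y σ)) 0 : ℤ) : ℝ) := by
      exact_mod_cast h4
    push_cast at h5
    convert h5 using 2
    by_cases h6 : 0 < D y x σ
    · rw [if_pos h6, if_pos h6]
    · rw [if_neg h6, if_neg h6]
  · intro a ha b hb hab
    simp only at hab
    unfold D at hab
    rw [Finset.mem_coe, Finset.mem_filter] at ha hb
    refine he ha.1 hb.1 (σ.injective (Fin.ext ?_))
    omega

end count

/-! ## the majority order -/

section major
variable {N : ℕ} {R : Fin N → Fin N → Prop} {π : Equiv.Perm (Fin N)}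

/-- probability that the `l`-th element comes before the `i`-th -/
noncomputable def pp (R : Fin N → Fin N → Prop) (π : Equiv.Perm (Fin N)) (hN : 0 < N)
    (i l : ℕ) : ℝ := prob R (ex π hN l) (ex π hN i)

/-- the `i`-th and the `i + 1`-st element are incomparable -/
def ic (R : Fin N → Fin N → Prop) (π : Equiv.Perm (Fin N)) (hN : 0 < N) (i : ℕ) : Prop :=
  Inc R (ex π hN i) (ex π hN (i + 1))

/-- the `i`-th and the `i + 2`-nd element are incomparable -/
def fr (R : Fin N → Fin N → Prop) (π : Equiv.Perm (Fin N)) (hN : 0 < N) (i : ℕ) : Prop :=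
  Inc R (ex π hN i) (ex π hN (i + 2))

theorem pp_nonneg (hN : 0 < N) (i l : ℕ) : 0 ≤ pp R π hN i l := prob_nonneg' R _ _

theorem sum_ex (hN : 0 < N) (f : Fin N → ℝ) :
    ∑ x : Fin N, f x = ∑ k ∈ range N, f (ex π hN k) := by
  rw [Finset.sum_range (fun k => f (ex π hN k)), ← Equiv.sum_comp π.symm f]
  refine Finset.sum_congr rfl (fun k _ => ?_)
  unfold ex
  congr 2
  apply Fin.ext
  have := k.2
  show (k : ℕ) = min (k : ℕ) (N - 1)
  omega

/-- the mean positions -/
theorem pos_ex (hr : IsPoset R) (hN : 0 < N) :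
    Pos N (pp R π hN) (fun j => ht R (ex π hN j)) := by
  intro j hj
  show ht R (ex π hN j) = _
  rw [ht_eq_sum hr, sum_ex (π := π) hN]
  have h0 : ∑ k ∈ range N, prob R (ex π hN k) (ex π hN j) =
      ∑ k ∈ range j, prob R (ex π hN k) (ex π hN j) +
        ∑ k ∈ Ico j N, prob R (ex π hN k) (ex π hN j) :=
    (Finset.sum_range_add_sum_Ico _ hj.le).symm
  rw [h0, Finset.sum_eq_sum_Ico_succ_bot hj, prob_self_zero]
  have h1 : ∑ k ∈ range j, prob R (ex π hN k) (ex π hN j) =
      (j : ℝ) - ∑ k ∈ range j, pp R π hN k j := by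
    have : ∀ k ∈ range j, prob R (ex π hN k) (ex π hN j) = 1 - pp R π hN k j := by
      intro k hk
      rw [Finset.mem_range] at hk
      have := prob_add hr (ex_ne (π := π) hN hk hj)
      unfold pp
      linarith
    rw [Finset.sum_congr rfl this, Finset.sum_sub_distrib]
    simp
  rw [h1]
  unfold pp
  ring

theorem ex_injOn (hN : 0 < N) (T : Finset ℕ) (hT : ∀ k ∈ T, k < N) :
    Set.InjOn (ex π hN) T := by
  intro a ha b hb hab
  rw [Finset.mem_coe] at ha hb
  rcases Nat.lt_trichotomy a b with h | h | h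
  · exact absurd hab (ex_ne hN h (hT b hb))
  · exact h
  · exact absurd hab.symm (ex_ne hN h (hT a ha))

/-- elements of the same chain of a run are comparable -/
theorem rel_run (hr : IsPoset R) (hπ : π ∈ LEs R) (hN : 0 < N) {a : ℕ} (c : ℕ)
    (h : ∀ m, a ≤ m → m + 2 ≤ a + 2 * c → ¬ fr R π hN m) :
    R (ex π hN a) (ex π hN (a + 2 * c)) := by
  induction c with
  | zero => exact hr.1 _
  | succ c ih =>
    have h1 := ih (fun m b1 b2 => h m b1 (by omega))
    have h2 := rel_of_not_inc hr hπ hN (i := a + 2 * c) (j := a + 2 * c + 2) (by omega)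
      (h (a + 2 * c) (by omega) (by omega))
    exact hr.2.1 _ _ _ h1 h2

theorem rel_up (hr : IsPoset R) (hπ : π ∈ LEs R) (hN : 0 < N) {i l : ℕ}
    (h : lk (ic R π hN) (fr R π hN) i l) : R (ex π hN (i + 1)) (ex π hN l) := by
  obtain ⟨h1, h2, _, h4⟩ := h
  obtain ⟨c, hc⟩ : ∃ c, l = i + 1 + 2 * c := ⟨(l - (i + 1)) / 2, by omega⟩
  rw [hc]
  exact rel_run hr hπ hN c (fun m a b => h4 m (by omega) (by omega))

theorem rel_down (hr : IsPoset R) (hπ : π ∈ LEs R) (hN : 0 < N) {i l : ℕ}
    (h : lk (ic R π hN) (fr R π hN) i (l + 1)) : R (ex π hN i) (ex π hN l) := by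
  obtain ⟨h1, h2, _, h4⟩ := h
  obtain ⟨c, hc⟩ : ∃ c, l = i + 2 * c := ⟨(l - i) / 2, by omega⟩
  rw [hc]
  exact rel_run hr hπ hN c (fun m a b => h4 m a (by omega))

/-- the linked later elements before `x_i` -/
theorem out_le (hr : IsPoset R) (hπ : π ∈ LEs R) (hN : 0 < N) (i : ℕ) :
    out N (pp R π hN) (ic R π hN) (fr R π hN) i ≤ mneg R (ex π hN i) (ex π hN (i + 1)) := by
  classical
  unfold out
  rw [← Finset.sum_filter]
  refine cnt_up _ (ex π hN) (ex_injOn hN _ ?_) ?_
  · intro k hk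
    rw [Finset.mem_filter, Finset.mem_Ico] at hk
    exact hk.1.2
  · intro k hk
    rw [Finset.mem_filter] at hk
    exact rel_up hr hπ hN hk.2

/-- the linked earlier elements after `x_(l+1)` -/
theorem inn_le (hr : IsPoset R) (hπ : π ∈ LEs R) (hN : 0 < N) {l : ℕ} (hl : l + 1 < N) :
    inn (pp R π hN) (ic R π hN) (fr R π hN) (l + 1) ≤ mneg R (ex π hN l) (ex π hN (l + 1)) := by
  classical
  unfold inn
  rw [← Finset.sum_filter]
  refine cnt_down _ (ex π hN) (ex_injOn hN _ ?_) ?_
  · intro k hk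
    rw [Finset.mem_filter, Finset.mem_range] at hk
    omega
  · intro k hk
    rw [Finset.mem_filter] at hk
    exact rel_down hr hπ hN hk.2

/-- the cost of a triple of type (1) on its left side -/
theorem costL_le (hr : IsPoset R) (hπ : π ∈ LEs R) (hN : 0 < N) {j : ℕ} (hj : j + 3 < N)
    (h : ¬ fr R π hN (j + 1)) :
    costL (pp R π hN) (ic R π hN) (fr R π hN) (j + 1) ≤
      mneg R (ex π hN j) (ex π hN (j + 1)) - prob R (ex π hN (j + 1)) (ex π hN j) := by
  classical
  unfold costL
  rw [← Finset.sum_filter]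
  have := cnt_down' (r := R) ((range (j + 1)).filter (fun k => lk (ic R π hN) (fr R π hN) k (j + 1) ∧
    ¬ lk (ic R π hN) (fr R π hN) k (j + 1 + 2))) (ex π hN) (x := ex π hN j) (y := ex π hN (j + 1))
    (v := ex π hN (j + 3)) (ex_injOn hN _ ?_) ?_ (rel_of_not_inc hr hπ hN (by omega) h)
    (ex_ne hN (by omega) hj)
  · unfold pp
    linarith
  · intro k hk
    rw [Finset.mem_filter, Finset.mem_range] at hk
    omega
  · intro k hk
    rw [Finset.mem_filter] at hk
    exact rel_down hr hπ hN hk.2.1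

/-- the cost of a triple of type (1) on its right side -/
theorem costR_le (hr : IsPoset R) (hπ : π ∈ LEs R) (hN : 0 < N) {j : ℕ} (hj : j + 3 < N)
    (h : ¬ fr R π hN (j + 1)) :
    costR N (pp R π hN) (ic R π hN) (fr R π hN) (j + 1) ≤
      mneg R (ex π hN (j + 3)) (ex π hN (j + 4)) - prob R (ex π hN (j + 4)) (ex π hN (j + 3)) := by
  classical
  unfold costR
  rw [← Finset.sum_filter]
  have := cnt_up' (r := R) ((Ico (j + 1 + 3) N).filter (fun l =>
    lk (ic R π hN) (fr R π hN) (j + 1 + 2) l ∧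
    ¬ lk (ic R π hN) (fr R π hN) (j + 1) l)) (ex π hN) (x := ex π hN (j + 3))
    (y := ex π hN (j + 4)) (v := ex π hN (j + 1)) (ex_injOn hN _ ?_) ?_
    (rel_of_not_inc hr hπ hN (by omega) h) (ex_ne hN (by omega) hj)
  · unfold pp
    linarith
  · intro k hk
    rw [Finset.mem_filter, Finset.mem_Ico] at hk
    exact hk.1.2
  · intro k hk
    rw [Finset.mem_filter] at hk
    exact rel_up hr hπ hN hk.2.1

/-- **Triples of type (1)** -/
theorem type1 (hr : IsPoset R) (hπ : π ∈ LEs R) (hN : 0 < N) {j : ℕ} (hj : j + 3 < N)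
    (i0 : ic R π hN (j + 1)) (i1 : ic R π hN (j + 2)) (f0 : ¬ fr R π hN (j + 1)) :
    2 + F N (pp R π hN) (ic R π hN) (fr R π hN) j - F N (pp R π hN) (ic R π hN) (fr R π hN) (j + 1)
      - F N (pp R π hN) (ic R π hN) (fr R π hN) (j + 2)
      + F N (pp R π hN) (ic R π hN) (fr R π hN) (j + 3)
      - costL (pp R π hN) (ic R π hN) (fr R π hN) (j + 1)
      - costR N (pp R π hN) (ic R π hN) (fr R π hN) (j + 1)
      ≤ ht R (ex π hN (j + 3)) - ht R (ex π hN (j + 1)) := by
  have h13 := rel_of_not_inc hr hπ hN (i := j + 1) (j := j + 3) (by omega) f0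
  exact gap_type1' (pos_ex hr hN) hj i0 i1 (prob_zero_of_rel h13)
    (fun l _ _ => prob_le_right hr h13) (fun k _ => prob_le_left hr h13)
    (fun i l => pp_nonneg hN i l)

end major

end Pool.Agent.BFT3
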